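import Pool.Agent.MP_f1fec5_al.Aff.Main

namespace Pool.Agent.Results.MP_f1fec5_al.Affine

open Pool.Agent.MP_f1fec5_al

universe u v

theorem result (k R : Type u) [Field k] [IsAlgClosed k] [CommRing R] [Nontrivial R]
    [Algebra k R] [Algebra.FiniteType k R] :
    HasDomainModel.{u, max u v} R ↔
      Cardinal.aleph0 ≤ Algebra.trdeg (⊥ : Subfield k) k ∨ ringKrullDim R ≤ 1 ∨
        ∃ (B C : Type u) (_ : CommRing B) (_ : IsDomain B) (_ : CommRing C)
          (_ : IsArtinianRing C), Nonempty (R ≃+* B × C) :=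
  Aff.affine_iff k R

end Pool.Agent.Results.MP_f1fec5_al.Affine
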