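import Pool.Agent.MP_f1fec5_al.Mg.Sig_Main

namespace Pool.Agent.Results.MP_f1fec5_al.AnalyticComplete

open Pool.Agent.MP_f1fec5_al Pool.Agent.MP_f1fec5_al.Sig

universe v

/-- The set of presentations of countable rings that have a domain model is a complete analytic
set, and the reductions can be taken with values in rings `k[x,y,z] × ℤ`, `k` a field. -/
theorem result :
    MeasureTheory.AnalyticSet {c : MvPolynomial ℕ ℤ → Bool | HasDomainModel.{0, v} (Pres c)} ∧
      ∀ (Y : Type) [TopologicalSpace Y] [PolishSpace Y] [MeasurableSpace Y] [BorelSpace Y]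
        (A : Set Y), MeasureTheory.AnalyticSet A →
          ∃ f : Y → (MvPolynomial ℕ ℤ → Bool), Measurable f ∧
            (∀ y, ∃ (k : Type) (_ : Field k),
              Nonempty (Pres (f y) ≃+* Polynomial (Polynomial (Polynomial k)) × ℤ)) ∧
            A = f ⁻¹' {c | HasDomainModel.{0, v} (Pres c)} :=
  ⟨analyticSet_H, fun _ _ _ _ _ _ hA => hard hA⟩

end Pool.Agent.Results.MP_f1fec5_al.AnalyticComplete
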