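import Pool.Agent.MP_f1fec5_al.Local

namespace Pool.Agent.Results.MP_f1fec5_al.LargeTrdeg

open Pool.Agent.MP_f1fec5_al

universe u

theorem result (R : Type u) [CommRing R] [Infinite R] (Ps : Finset (Ideal R))
    (hprime : ∀ P ∈ Ps, P.IsPrime)
    (hcover : ∀ x : R, x ∉ nonZeroDivisors R ↔ ∃ P ∈ Ps, x ∈ P)
    (hint : ∀ n : ℤ, (n : R) = 0 ∨ (n : R) ∈ nonZeroDivisors R)
    (htr : ∀ P ∈ Ps, Cardinal.mk R ≤ Algebra.trdeg (⊥ : Subring (R ⧸ P)) (R ⧸ P)) :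
    HasDomainModel.{u, u} R := by
  refine hasDomainModel_of_bigTr Ps hprime (fun x => ?_) hint (fun P hP => ?_)
  · rw [← not_iff_not, hcover]
    simp
  · have := hprime P hP
    exact bigTr_of_trdeg (htr P hP)

end Pool.Agent.Results.MP_f1fec5_al.LargeTrdeg
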