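import Pool.Agent.MP_f1fec5_al.Pol.Main

namespace Pool.Agent.Results.MP_f1fec5_al.PolyRings

open Pool.Agent.MP_f1fec5_al

universe u v

theorem result (A : Type u) [CommRing A] [Nontrivial A] [IsNoetherianRing A] (ι : Type u)
    (hι : 3 ≤ Cardinal.mk ι) :
    HasDomainModel.{u, max u v} (MvPolynomial ι A) ↔ IsDomain A ∨
      ((∀ n : ℤ, (n : A) = 0 ∨ (n : A) ∈ nonZeroDivisors A) ∧ ∀ P ∈ associatedPrimes A A,
        max (Cardinal.mk A) Cardinal.aleph0 ≤
          Algebra.trdeg (⊥ : Subring (A ⧸ P)) (A ⧸ P) + Cardinal.mk ι) :=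
  Pol.main hι

end Pool.Agent.Results.MP_f1fec5_al.PolyRings
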